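import Pool.Agent.H313.SX.Jm

set_option autoImplicit false

/-!
# MP_6a632e_nt: the order of the joint moments of zeta and of its argument from below, all real exponents

No hypothesis is made. `S(t)` is the remainder term of the Riemann-von Mangoldt formula. For every `A` there is `c > 0` such that for ALL real
`k`, `l` with `|k| + |l| ≤ A` and all large `T` (uniformly in `k`, `l`) the joint moment `∫ |ζ(1/2 + it)|^(2k) exp (2 l π S(t)) dt` over
`[T, 2T]` is at least `c T (log T)^(k² + l²)`, the order predicted by Keating and Snaith.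
-/

namespace Pool.Agent.Results.MP_6a632e_nt.JointMomentsWithArgument

open Filter Topology MeasureTheory Complex

noncomputable section

/-- the number `N(t)` of the nontrivial zeros with ordinate in `(0, t]`, counted with multiplicity -/
def N (t : ℝ) : ℕ := ∑ᶠ s ∈ {s : ℂ | riemannZeta s = 0 ∧ 0 < s.re ∧ s.re < 1 ∧ 0 < s.im ∧ s.im ≤ t}, analyticOrderNatAt riemannZeta s

/-- the remainder term of the Riemann-von Mangoldt formula (`π⁻¹ arg ζ(1/2 + it)` up to `O(1/t)`) -/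
def S (t : ℝ) : ℝ :=
  (N t : ℝ) - (t / (2 * Real.pi) * Real.log (t / (2 * Real.pi)) - t / (2 * Real.pi) + 7 / 8)

/-- the joint moment over `[T, 2T]`, in `[0, ∞]` -/
def moment (k l T : ℝ) : ENNReal := ∫⁻ t in Set.Icc T (2 * T),
  ENNReal.ofReal (‖riemannZeta (1 / 2 + t * I)‖ ^ (2 * k) * Real.exp (2 * l * (Real.pi * S t)))

lemma N_eq (t : ℝ) : N t = H370.NN riemannZeta 0 t := by
  unfold N H370.NN
  have : {s : ℂ | riemannZeta s = 0 ∧ 0 < s.re ∧ s.re < 1 ∧ 0 < s.im ∧ s.im ≤ t} = H370.zset riemannZeta 0 t := by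
    ext s
    simp only [H370.zset, Set.mem_ofPred_eq]
    tauto
  rw [this]
  rfl

lemma N_add {t : ℝ} (ht : 1 ≤ t) : (N t : ℝ) = N 1 + (H370.NN riemannZeta 1 t : ℝ) := by
  rw [N_eq, N_eq]
  have h : H370.zset riemannZeta 0 t = H370.zset riemannZeta 0 1 ∪ H370.zset riemannZeta 1 t := by
    ext s
    simp only [H370.zset, Set.mem_ofPred_eq, Set.mem_union]
    constructor
    · rintro ⟨a1, a2, a3, a4, a5⟩
      rcases le_or_gt s.im 1 with h1 | h1
      · exact Or.inl ⟨a1, a2, a3, h1, a5⟩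
      · exact Or.inr ⟨a1, a2, h1, a4, a5⟩
    · rintro (⟨a1, a2, a3, a4, a5⟩ | ⟨a1, a2, a3, a4, a5⟩)
      · exact ⟨a1, a2, a3, a4.trans ht, a5⟩
      · exact ⟨a1, a2, by linarith, a4, a5⟩
  have hd : Disjoint (H370.zset riemannZeta 0 1) (H370.zset riemannZeta 1 t) := by
    rw [Set.disjoint_left]
    rintro s ⟨-, -, -, h1, -⟩ ⟨-, -, h2, -, -⟩
    linarith
  unfold H370.NN
  rw [h, finsum_mem_union hd (H370.zeta_zeros_finite 1) ((H370.zeta_zeros_finite t).subset ?_)]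
  · push_cast
    ring
  · rintro s ⟨a1, a2, a3, a4, a5⟩
    exact ⟨a1, a2, by linarith, a4, a5⟩

lemma S_eq {t : ℝ} (ht : 1 ≤ t) : S t = Pool.Agent.K4H8.JG.E1 t + (N 1 - 7 / 8) := by
  unfold S Pool.Agent.K4H8.JG.E1 Pool.Agent.K4H8.JG.Em
  rw [N_add ht]
  ring

theorem result : ∀ A : ℝ, ∃ c T₀ : ℝ, 0 < c ∧ ∀ T : ℝ, T₀ ≤ T → ∀ k l : ℝ, |k| + |l| ≤ A →
    ENNReal.ofReal (c * T * Real.log T ^ (k ^ 2 + l ^ 2)) ≤ moment k l T := by
  intro A
  obtain ⟨A', hA', hA1, hA0⟩ : ∃ A' : ℝ, A ≤ A' ∧ 1 ≤ A' ∧ 0 ≤ A' :=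
    ⟨max A 1, le_max_left _ _, le_max_right _ _, le_trans zero_le_one (le_max_right _ _)⟩
  obtain ⟨c, hc, h⟩ := Pool.Agent.H313.SX.joint_low A' hA1
  obtain ⟨T₀, hT₀⟩ := eventually_atTop.1 (h.and (eventually_ge_atTop (16 : ℝ)))
  obtain ⟨d, hd⟩ : ∃ d : ℝ, d = (N 1 : ℝ) - 7 / 8 := ⟨_, rfl⟩
  obtain ⟨r, hr⟩ : ∃ r : ℝ, r = Real.exp (-(2 * A' * (Real.pi * |d|))) := ⟨_, rfl⟩
  have hr0 : 0 < r := by rw [hr]; exact Real.exp_pos _
  refine ⟨r * c, T₀, by positivity, fun T hT k l hkl => ?_⟩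
  obtain ⟨h1, hT16⟩ := hT₀ T hT
  have h2 := h1 k l (hkl.trans hA')
  have hL : 0 < Real.log T := Real.log_pos (by linarith)
  have hl : |l| ≤ A' := by
    have := abs_nonneg k
    linarith
  have e1 : r * c * T * Real.log T ^ (k ^ 2 + l ^ 2) =
      r * (c * T * Real.exp ((k ^ 2 + l ^ 2) * Real.log (Real.log T))) := by
    rw [Real.rpow_def_of_pos hL, mul_comm (Real.log (Real.log T))]
    ring
  rw [e1, ENNReal.ofReal_mul hr0.le]
  refine (mul_le_mul_right h2 (ENNReal.ofReal r)).trans ?_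
  rw [← lintegral_const_mul' _ _ ENNReal.ofReal_ne_top]
  unfold moment
  refine setLIntegral_mono' measurableSet_Icc fun t ht => ?_
  rw [← ENNReal.ofReal_mul hr0.le]
  apply ENNReal.ofReal_le_ofReal
  rw [S_eq (by linarith [ht.1]), ← hd]
  have e2 : Real.exp (2 * l * (Real.pi * (Pool.Agent.K4H8.JG.E1 t + d))) =
      Real.exp (2 * l * (Real.pi * d)) * Real.exp (2 * l * (Real.pi * Pool.Agent.K4H8.JG.E1 t)) := by
    rw [← Real.exp_add]
    congr 1
    ring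
  rw [e2]
  have h3 : r ≤ Real.exp (2 * l * (Real.pi * d)) := by
    rw [hr]
    apply Real.exp_le_exp.2
    have h4 : |l * (Real.pi * d)| ≤ A' * (Real.pi * |d|) := by
      rw [abs_mul, abs_mul, abs_of_pos Real.pi_pos]
      exact mul_le_mul_of_nonneg_right hl (by positivity)
    have h5 := (abs_le.1 h4).1
    linarith
  have h6 : (0 : ℝ) ≤ ‖riemannZeta (1 / 2 + t * I)‖ ^ (2 * k) * Real.exp (2 * l * (Real.pi * Pool.Agent.K4H8.JG.E1 t)) := by positivity
  calc r * (‖riemannZeta (1 / 2 + t * I)‖ ^ (2 * k) * Real.exp (2 * l * (Real.pi * Pool.Agent.K4H8.JG.E1 t))) ≤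
      Real.exp (2 * l * (Real.pi * d)) * (‖riemannZeta (1 / 2 + t * I)‖ ^ (2 * k) * Real.exp (2 * l * (Real.pi * Pool.Agent.K4H8.JG.E1 t))) :=
        mul_le_mul_of_nonneg_right h3 h6
    _ = _ := by ring

end

end Pool.Agent.Results.MP_6a632e_nt.JointMomentsWithArgument
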