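import Pool.Agent.H481.GA10

/-!
# The order of all moments from a positive proportion of the correlations

The moments `M_k` of the zeta function on the critical line are conjectured to be of the exact order
`(log T)^{k²}` for all real `k > 0` (and, for integers `k`, with the constants of Keating and
Snaith).  In the unitary model, `N` points `z_1, …, z_N` of the unit circle replace the zeros, `N`
replaces `log T`, and the moment of order `2 k` is
`M_k = E (2π)⁻¹ ∫_0^{2π} |∏_j (e^{iθ} - z_j)|^{2k} dθ`.  The correlations of the zeros are known in a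
limited range only; in the model the correlations of range `R` are the joint moments of the power
sums `p_j = z_1^j + ⋯ + z_N^j` of weighted degree at most `R` (for a Haar distributed unitary matrix
`U` they are the traces of the powers `U^j`).

We determine which range forces the order of the moments.  Let `C(N, R)` be the class of all laws of
`N` points of the circle with the correlations of range `R` of the eigenvalues of a Haar distributed
unitary `N × N` matrix.  Let `k > 0` be real.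

* (1) If `R ≤ N`, then `M_k ≥ ∏_{m ≤ R} (1 + k²/m) ≥ e^{-k⁴} (R + 1)^{k²}` on `C(N, R)`.
* (2) This is sharp up to a constant, for all `1 ≤ R < N / 2` and with one law for all `k`.
* (3) If `R ≥ δ N`, then `M_k ≤ C(k, δ) N^{k²}` on `C(N, R)`.
* (4) So correlations of the range `R(N)` force the order `N^{k²}` of the moment of order `2 k` if
  and only if `R(N) ≥ δ N` for some `δ > 0`.
-/

open MeasureTheory

namespace Pool.Agent.Results.MP_6a632e_nt.MomentOrder

/-- the mean of `f` over the eigenvalues `z = (e^{iθ_1}, …, e^{iθ_N})` of a Haar distributed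
unitary `N × N` matrix (Weyl's formula):
`(N! (2π)^N)⁻¹ ∫_{(0, 2π]^N} f(z) ∏_{i < j} |z_j - z_i|² dθ` -/
noncomputable def haarMean (N : ℕ) (f : (Fin N → ℂ) → ℂ) : ℂ :=
  ((N.factorial : ℂ) * (2 * Real.pi) ^ N)⁻¹ *
    ∫ θ in Set.univ.pi fun _ : Fin N => Set.Ioc (0 : ℝ) (2 * Real.pi),
      f (fun j => Complex.exp (Complex.I * θ j)) *
        ((∏ i : Fin N, ∏ j ∈ Finset.Ioi i,
          ‖Complex.exp (Complex.I * θ j) - Complex.exp (Complex.I * θ i)‖ ^ 2 : ℝ) : ℂ)

/-- the product of the power sums `z_1^j + ⋯ + z_N^j` over the members `j` of the multiset `s` -/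
noncomputable def powerSums {N : ℕ} (s : Multiset ℕ) (z : Fin N → ℂ) : ℂ :=
  (s.map fun j => ∑ i, z i ^ j).prod

/-- `ν` is a law of `N` points on the unit circle with the correlations of range `R` of the
eigenvalues of a Haar distributed unitary `N × N` matrix: the means
`E[∏_{j ∈ s} p_j · conj ∏_{j ∈ t} p_j]` are the same, for all multisets `s`, `t` of positive integers
of sum at most `R`, with the power sums `p_j = z_1^j + ⋯ + z_N^j` -/
structure Agrees (N R : ℕ) (ν : Measure (Fin N → ℂ)) : Prop where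
  prob : IsProbabilityMeasure ν
  unit : ∀ᵐ z ∂ν, ∀ i, ‖z i‖ = 1
  moments : ∀ s t : Multiset ℕ, (∀ j ∈ s, 0 < j) → (∀ j ∈ t, 0 < j) → s.sum ≤ R → t.sum ≤ R →
    ∫ z, powerSums s z * (starRingEnd ℂ) (powerSums t z) ∂ν =
      haarMean N (fun z => powerSums s z * (starRingEnd ℂ) (powerSums t z))

/-- the mean of the `2k`-th power of the absolute value of the polynomial with the zeros `z_j` over
the unit circle: `(2π)⁻¹ ∫_0^{2π} |∏_j (e^{iθ} - z_j)|^{2k} dθ` -/
noncomputable def meanPower {N : ℕ} (k : ℝ) (z : Fin N → ℂ) : ℝ :=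
  (2 * Real.pi)⁻¹ * ∫ θ in Set.Ioc (0 : ℝ) (2 * Real.pi),
    ‖∏ j, (Complex.exp (Complex.I * θ) - z j)‖ ^ (2 * k)

/-- the moment of order `2 k` of the characteristic polynomial for the law `ν` -/
noncomputable def moment {N : ℕ} (k : ℝ) (ν : Measure (Fin N → ℂ)) : ℝ := ∫ z, meanPower k z ∂ν

/-- **Theorem.** (1) Let `k > 0` be real and `R ≤ N`, `N ≥ 1`.  All laws with the correlations of
range `R` have a moment of order `2 k` of at least `∏_{m=1}^R (1 + k²/m) ≥ e^{-k⁴} (R + 1)^{k²}`.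
(2) There is `C : ℝ → ℝ` such that for `1 ≤ R < N / 2` there is a law with the correlations of range
`R` whose moments of order `2 k` are at most `C(k) R^{k²}`, for all real `k > 0`.
(3) Let `k, δ > 0` be real.  There is `C` such that for all `N ≥ 1`, `R ≥ δ N` and all laws with the
correlations of range `R` the moment of order `2 k` is at most `C N^{k²}`.
(4) Let `k > 0` be real and `1 ≤ R(N) ≤ N` for `N ≥ 1`.  The moments of order `2 k` of all laws with
the correlations of range `R(N)` lie between two positive constant multiples of `N^{k²}` if and only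
if `R(N) ≥ δ N` for some `δ > 0` and all `N ≥ 1`. -/
theorem result :
    (∀ k : ℝ, 0 < k → ∀ N R : ℕ, 1 ≤ N → R ≤ N → ∀ ν : Measure (Fin N → ℂ), Agrees N R ν →
      Real.exp (-k ^ 4) * ((R : ℝ) + 1) ^ (k ^ 2) ≤
        ∏ m ∈ Finset.range R, (1 + k ^ 2 / ((m : ℝ) + 1)) ∧
      ∏ m ∈ Finset.range R, (1 + k ^ 2 / ((m : ℝ) + 1)) ≤ moment k ν) ∧
    (∃ C : ℝ → ℝ, ∀ R N : ℕ, 1 ≤ R → 2 * R < N → ∃ ν : Measure (Fin N → ℂ), Agrees N R ν ∧
      ∀ k : ℝ, 0 < k → moment k ν ≤ C k * (R : ℝ) ^ (k ^ 2)) ∧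
    (∀ k δ : ℝ, 0 < k → 0 < δ → ∃ C : ℝ, ∀ N R : ℕ, 1 ≤ N → δ * N ≤ R →
      ∀ ν : Measure (Fin N → ℂ), Agrees N R ν → moment k ν ≤ C * (N : ℝ) ^ (k ^ 2)) ∧
    (∀ k : ℝ, 0 < k → ∀ R : ℕ → ℕ, (∀ N, 1 ≤ N → 1 ≤ R N ∧ R N ≤ N) →
      ((∃ c C : ℝ, 0 < c ∧ 0 < C ∧ ∀ N, 1 ≤ N → ∀ ν : Measure (Fin N → ℂ), Agrees N (R N) ν →
        c * (N : ℝ) ^ (k ^ 2) ≤ moment k ν ∧ moment k ν ≤ C * (N : ℝ) ^ (k ^ 2)) ↔
      ∃ δ : ℝ, 0 < δ ∧ ∀ N : ℕ, 1 ≤ N → δ * N ≤ R N)) := by
  have hTC : ∀ (N R : ℕ) (ν : Measure (Fin N → ℂ)), Agrees N R ν →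
      Pool.Agent.H481.GA.TC N R ν := by
    intro N R ν hν
    have := hν.prob
    refine Pool.Agent.H481.GA.TC_of hν.unit fun s t hs ht hsR htR => ?_
    have h := hν.moments s t hs ht hsR htR
    simp only [Pool.Agent.H481.GA.eval_pm]
    exact h
  have part1 : ∀ k : ℝ, 0 < k → ∀ N R : ℕ, 1 ≤ N → R ≤ N → ∀ ν : Measure (Fin N → ℂ),
      Agrees N R ν →
      Real.exp (-k ^ 4) * ((R : ℝ) + 1) ^ (k ^ 2) ≤
        ∏ m ∈ Finset.range R, (1 + k ^ 2 / ((m : ℝ) + 1)) ∧
      ∏ m ∈ Finset.range R, (1 + k ^ 2 / ((m : ℝ) + 1)) ≤ moment k ν := by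
    intro k hk N R hN hR ν hν
    have := hν.prob
    refine ⟨?_, Pool.Agent.H481.GA.lower hk hN hR hν.unit (hTC N R ν hν)⟩
    have h := Pool.Agent.H481.MO.prod_lower (a := k ^ 2) (by positivity) R
    have e : -(k ^ 2) ^ 2 = -k ^ 4 := by ring
    rw [e] at h
    exact h
  have part2 : ∃ C : ℝ → ℝ, ∀ R N : ℕ, 1 ≤ R → 2 * R < N → ∃ ν : Measure (Fin N → ℂ),
      Agrees N R ν ∧ ∀ k : ℝ, 0 < k → moment k ν ≤ C k * (R : ℝ) ^ (k ^ 2) := by
    classical
    refine ⟨fun k => if h : 0 < k then (Pool.Agent.H481.GA.small h).choose else 0,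
      fun R N hR hRN => ⟨Pool.Agent.H481.GA.sl R N, ⟨Pool.Agent.H481.GA.sl_prob hR,
        Pool.Agent.H481.GA.sl_unit, ?_⟩, ?_⟩⟩
    · intro s t hs ht hsR htR
      have h := Pool.Agent.H481.GA.sl_TC (N := N) hR hRN
        (Pool.Agent.H481.GA.pm s) (Pool.Agent.H481.GA.pm t)
        (Pool.Agent.H481.GA.pm_mem hs hsR) (Pool.Agent.H481.GA.pm_mem ht htR)
      simp only [Pool.Agent.H481.GA.eval_pm] at h
      exact h
    · intro k hk
      simp only [dif_pos hk]
      exact (Pool.Agent.H481.GA.small hk).choose_spec.2 R hR N hRN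
  have part3 : ∀ k δ : ℝ, 0 < k → 0 < δ → ∃ C : ℝ, 0 < C ∧ ∀ N R : ℕ, 1 ≤ N → δ * N ≤ R →
      ∀ ν : Measure (Fin N → ℂ), Agrees N R ν → moment k ν ≤ C * (N : ℝ) ^ (k ^ 2) := by
    intro k δ hk hδ
    obtain ⟨C, hC, h⟩ := Pool.Agent.H481.GA.upper hk hδ
    exact ⟨C, hC, fun N R hN hR ν hν => h N hN R hR ν hν.prob hν.unit (hTC N R ν hν)⟩
  refine ⟨part1, part2, fun k δ hk hδ => ?_, fun k hk R hR => ⟨?_, ?_⟩⟩
  · obtain ⟨C, _, h⟩ := part3 k δ hk hδ
    exact ⟨C, h⟩
  · rintro ⟨c, C, hc, _, h⟩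
    obtain ⟨D, hD⟩ := part2
    set D' : ℝ := max (D k) 1 with hD'
    have hD'1 : 1 ≤ D' := le_max_right _ _
    have hD'0 : 0 < D' := by linarith
    have hk2 : 0 < k ^ 2 := by positivity
    set δ : ℝ := min (1 / 2) ((c / D') ^ (1 / k ^ 2)) with hδ
    have hδ0 : 0 < δ := lt_min (by norm_num) (by positivity)
    refine ⟨δ, hδ0, fun N hN => ?_⟩
    have hNr : (0 : ℝ) < N := by exact_mod_cast hN
    by_cases h2 : 2 * R N < N
    · obtain ⟨ν, hν, hνk⟩ := hD (R N) N (hR N hN).1 h2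
      have h3 := (h N hN ν hν).1
      have h4 : moment k ν ≤ D' * (R N : ℝ) ^ (k ^ 2) :=
        (hνk k hk).trans (mul_le_mul_of_nonneg_right (le_max_left _ _) (by positivity))
      have h5 : c / D' * (N : ℝ) ^ (k ^ 2) ≤ (R N : ℝ) ^ (k ^ 2) := by
        rw [div_mul_eq_mul_div, div_le_iff₀ hD'0]
        linarith
      have h6 : ((c / D') ^ (1 / k ^ 2) * N) ^ (k ^ 2) ≤ (R N : ℝ) ^ (k ^ 2) := by
        rw [Real.mul_rpow (by positivity) (by positivity), ← Real.rpow_mul (by positivity),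
          one_div_mul_cancel hk2.ne', Real.rpow_one]
        exact h5
      have h7 : (c / D') ^ (1 / k ^ 2) * N ≤ R N :=
        (Real.rpow_le_rpow_iff (by positivity) (by positivity) hk2).1 h6
      exact (mul_le_mul_of_nonneg_right (min_le_right _ _) hNr.le).trans h7
    · push Not at h2
      have h3 : (N : ℝ) ≤ 2 * R N := by exact_mod_cast h2
      calc δ * N ≤ 1 / 2 * N := mul_le_mul_of_nonneg_right (min_le_left _ _) hNr.le
        _ ≤ R N := by linarith
  · rintro ⟨δ, hδ, h⟩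
    obtain ⟨C, hC, hup⟩ := part3 k δ hk hδ
    refine ⟨Real.exp (-k ^ 4) * δ ^ (k ^ 2), C, by positivity, hC, fun N hN ν hν =>
      ⟨?_, hup N (R N) hN (h N hN) ν hν⟩⟩
    obtain ⟨h1, h2⟩ := part1 k hk N (R N) hN (hR N hN).2 ν hν
    have h3 : (δ * N) ^ (k ^ 2) ≤ ((R N : ℝ) + 1) ^ (k ^ 2) :=
      Real.rpow_le_rpow (by positivity) (by linarith [h N hN]) (by positivity)
    rw [Real.mul_rpow hδ.le (by positivity)] at h3
    have h4 := mul_le_mul_of_nonneg_left h3 (Real.exp_pos (-k ^ 4)).le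
    calc Real.exp (-k ^ 4) * δ ^ (k ^ 2) * (N : ℝ) ^ (k ^ 2) =
          Real.exp (-k ^ 4) * (δ ^ (k ^ 2) * (N : ℝ) ^ (k ^ 2)) := by ring
      _ ≤ _ := h4
      _ ≤ _ := h1.trans h2

end Pool.Agent.Results.MP_6a632e_nt.MomentOrder
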