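import Pool.Agent.H681.PZ.Main

set_option autoImplicit false

/-!
# MP_6a632e_nt: moments of all even orders with shifts of the size of a power of `log T`

The asymptotic formula (with the exact arithmetic constant) for the integral of
`|ζ(1/2 + it)|² |ζ(1/2 + i(t + c_1))|² ⋯ |ζ(1/2 + i(t + c_n))|²` over `[0, T]` without a small set of irregular `t`, for
almost all `c ∈ [0, U] ^ n`, where `U` may be as small as a power of `log T`.
-/

namespace Pool.Agent.Results.MP_6a632e_nt.ShiftsOfLogarithmicSize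

open Complex Filter MeasureTheory

noncomputable section

variable {n : ℕ}

/-- The regular points: the mean of `|ζ(1/2 + iu)| ^ 4` over `[t, t + U]` is at most `V`. -/
def Regular (U V : ℝ) : Set ℝ :=
  {t | ∫ u in t..(t + U), ‖riemannZeta (1 / 2 + I * u)‖ ^ 4 ≤ U * V}

/-- The moment of order `2n + 2` with the shifts `0, c_1, …, c_n`, over the regular points of `[0, T]`. -/
def moment (T U V : ℝ) (c : Fin n → ℝ) : ℝ :=
  ∫ t in Set.Icc 0 T ∩ Regular U V, ‖riemannZeta (1 / 2 + I * t)‖ ^ 2 *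
    ∏ j, ‖riemannZeta (1 / 2 + I * ((t + c j : ℝ) : ℂ))‖ ^ 2

/-- The local density at the prime `p`: `(1 - 1/p) ^ (n+1)` times the mean over the unit circle of the product of the
squared absolute values of the Euler factors at `p` on the critical line, with the shifts. -/
def loc (c : Fin n → ℝ) (p : ℕ) : ℝ :=
  (1 - 1 / (p : ℝ)) ^ (n + 1) * ∫ θ in (0:ℝ)..1,
    1 / (‖1 - cexp (2 * Real.pi * I * θ) * (p : ℂ) ^ (-(1 / 2) : ℂ)‖ ^ 2 *
      ∏ j, ‖1 - cexp (2 * Real.pi * I * θ) * (p : ℂ) ^ (-(1 / 2 + I * c j))‖ ^ 2)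

/-- The polar factor: `∏_j |ζ(1 + i c_j)|² ∏_{i < j} |ζ(1 + i (c_i - c_j))|²`. -/
def polar (c : Fin n → ℝ) : ℝ :=
  (∏ j, ‖riemannZeta (1 + I * c j)‖ ^ 2) *
    ∏ i, ∏ j ∈ Finset.Ioi i, ‖riemannZeta (1 + I * (c i - c j))‖ ^ 2

/-- The inverse of the Euler factor of the polar factor at `p`. -/
def polarInv (c : Fin n → ℝ) (p : ℕ) : ℝ :=
  (∏ j, ‖1 - (p : ℂ) ^ (-(1 + I * c j))‖ ^ 2) *
    ∏ i, ∏ j ∈ Finset.Ioi i, ‖1 - (p : ℂ) ^ (-(1 + I * (c i - c j)))‖ ^ 2

/-- The arithmetic factor, a product over all primes with factors `1 + O(p⁻²)`. -/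
def arith (c : Fin n → ℝ) : ℝ := ∏' p : Nat.Primes, loc c p * polarInv c p

lemma Regular_eq (U V : ℝ) : Regular U V = Pool.Agent.N879.PZ.Gs U V := by
  unfold Regular Pool.Agent.N879.PZ.Gs Pool.Agent.Y969.GP.ff
  simp only [← pow_mul]

lemma moment_eq (T U V : ℝ) (c : Fin n → ℝ) : moment T U V c = Pool.Agent.N879.PZ.MG T U V c := by
  unfold moment Pool.Agent.N879.PZ.MG
  rw [Regular_eq, Set.inter_comm]
  rfl

/-- **Moments of all even orders with shifts of logarithmic size.** Let `n` and `B` be given. There are `C₀` and `B₀` such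
that for every `ε > 0` and all large `T` the following holds for all `U` with `(log T) ^ C₀ ≤ U ≤ T ^ (1/4)`:

* the irregular points of `[0, T]` (those for which the mean of `|ζ(1/2 + iu)| ^ 4` over `[t, t + U]` is more than
  `(log T) ^ B₀`) form a set of measure at most `T / (log T) ^ B`;
* for all `c ∈ [0, U] ^ n` outside of a set of measure at most `ε U ^ n`, the moment of order `2n + 2` with the shifts
  `0, c_1, …, c_n` over the regular points of `[0, T]` is `(1 + O(ε))` times `polar c * arith c * T (log T) ^ (n + 1)`.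

The factors of the Euler product `arith c` are nonnegative and `1 + O(p⁻²)`, uniformly in `c`. -/
theorem result (n : ℕ) :
    (∀ B : ℕ, ∃ C₀ B₀ : ℕ, ∀ ε : ℝ, 0 < ε → ∀ᶠ T : ℝ in atTop, ∀ U : ℝ,
      Real.log T ^ C₀ ≤ U → U ≤ T ^ (1 / 4 : ℝ) →
      volume (Set.Icc 0 T \ Regular U (Real.log T ^ B₀)) ≤ ENNReal.ofReal (T / Real.log T ^ B) ∧
      volume {c : Fin n → ℝ | (∀ j, 0 ≤ c j ∧ c j ≤ U) ∧
          ¬ |moment T U (Real.log T ^ B₀) c / (polar c * arith c * (T * Real.log T ^ (n + 1))) - 1| ≤ ε} ≤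
        ENNReal.ofReal (ε * U ^ n)) ∧
    (∃ C : ℝ, ∀ c : Fin n → ℝ, ∀ p : ℕ, p.Prime →
      0 ≤ loc c p * polarInv c p ∧ |loc c p * polarInv c p - 1| ≤ C / (p : ℝ) ^ 2) ∧
    (∀ U V : ℝ, MeasurableSet (Regular U V)) := by
  refine ⟨fun B => ?_, ?_, fun U V => ?_⟩
  · obtain ⟨C₀, B₀, h⟩ := Pool.Agent.H681.PZ.hMAIN n B
    refine ⟨C₀, B₀, fun ε hε => ?_⟩
    filter_upwards [h ε hε] with T hT
    intro U h1 h2
    simp only [moment_eq, Regular_eq]
    exact hT U h1 h2
  · obtain ⟨C, _, h⟩ := Pool.Agent.N879.PZ.t_AA1 Pool.Agent.N879.PZ.t_LOC1 n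
    exact ⟨C, fun c p hp => (h c).1 p hp⟩
  · rw [Regular_eq]
    exact Pool.Agent.N879.PZ.Smlaux.Gs_meas U V

end

end Pool.Agent.Results.MP_6a632e_nt.ShiftsOfLogarithmicSize
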