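import Pool.Agent.H469.F4.NP9

set_option autoImplicit false

/-!
# MP_6a632e_nt: the order of the moments when all but four of the factors are replaced by partial sums

Mean values of `|ζ(1/2+it)|^{2s} |D_1(1/2+it)|² ⋯ |D_m(1/2+it)|²`, where the `D_i` are partial sums of the zeta series
(or of series with coefficients of the same size) of arbitrary lengths up to a small power of `T`.
-/

namespace Pool.Agent.Results.MP_6a632e_nt.ZetaAndPartialSums

open Filter Topology MeasureTheory Complex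

noncomputable section

/-- the Dirichlet polynomial `∑_{n ≤ N} r(n) n^{-1/2-it}`; a partial sum of the zeta series if `r = 1` -/
def poly (N : ℕ) (r : ℕ → ℝ) (t : ℝ) : ℂ := ∑ n ∈ Finset.Icc 1 N, (r n : ℂ) * (n : ℂ) ^ (-(1 / 2 + t * I))

/-- the mean value of `|ζ(1/2+it)|^{2s} ∏_i |∑_{n ≤ N_i} r_i(n) n^{-1/2-it}|²` over `T ≤ t ≤ 2T` -/
def mixedMoment {m : ℕ} (s : ℝ) (N : Fin m → ℕ) (r : Fin m → ℕ → ℝ) (T : ℝ) : ℝ :=
  (1 / T) * ∫ t in T..(2 * T), ‖riemannZeta (1 / 2 + t * I)‖ ^ (2 * s) * ∏ i, ‖poly (N i) (r i) t‖ ^ 2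

/-- the order of magnitude `(log T)^{s²} ∏_i (log N_i)^{2s} ∏_{i,j} log min(N_i, N_j)` -/
def order {m : ℕ} (s : ℝ) (N : Fin m → ℕ) (T : ℝ) : ℝ :=
  Real.log T ^ (s ^ 2) * (∏ i, Real.log (N i) ^ (2 * s)) * ∏ i, ∏ j, Real.log (min (N i) (N j) : ℕ)

/-- the coefficients lie in `[0, B]`, and in `[1/B, B]` for `n ≤ N^{1/q}`; for example `r = 1` -/
def Admissible (q : ℕ) (B : ℝ) (N : ℕ) (r : ℕ → ℝ) : Prop :=
  (∀ n, 0 ≤ r n ∧ r n ≤ B) ∧ ∀ n, 1 ≤ n → n ^ q ≤ N → 1 / B ≤ r n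

/-- **Mixed moments of zeta and of products of partial sums: the exact order.** Lower bounds for all real `s ≥ 0`, upper
bounds for all real `0 ≤ s ≤ 2`; uniformly in the lengths `2 ≤ N_i ≤ T^θ`. If all the lengths are at least `T^η`
the order is `(log T)^{k²}` with `k = s + m`. -/
theorem result (m q : ℕ) (hq : 1 ≤ q) (A B : ℝ) (hB : 1 ≤ B) : ∃ θ : ℝ, 0 < θ ∧
    (∃ c C : ℝ, 0 < c ∧ 0 < C ∧ ∀ᶠ T : ℝ in atTop, ∀ N : Fin m → ℕ, (∀ i, 2 ≤ N i ∧ (N i : ℝ) ≤ T ^ θ) →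
      ∀ r : Fin m → ℕ → ℝ, (∀ i, Admissible q B (N i) (r i)) → ∀ s : ℝ, 0 ≤ s → s ≤ A →
        c * order s N T ≤ mixedMoment s N r T ∧ (s ≤ 2 → mixedMoment s N r T ≤ C * order s N T)) ∧
    ∀ η : ℝ, 0 < η → ∃ c C : ℝ, 0 < c ∧ 0 < C ∧ ∀ᶠ T : ℝ in atTop, ∀ N : Fin m → ℕ, (∀ i, T ^ η ≤ N i ∧ (N i : ℝ) ≤ T ^ θ) →
      ∀ r : Fin m → ℕ → ℝ, (∀ i, Admissible q B (N i) (r i)) → ∀ s : ℝ, 0 ≤ s → s ≤ A →
        c * Real.log T ^ ((s + m) ^ 2) ≤ mixedMoment s N r T ∧
          (s ≤ 2 → mixedMoment s N r T ≤ C * Real.log T ^ ((s + m) ^ 2)) := by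
  obtain ⟨θ₁, C, hθ₁, hC, hup⟩ := Pool.Agent.H469.F4.mix_upper m hB
  obtain ⟨θ₂, c, hθ₂, hc, hlow⟩ := Pool.Agent.H469.F4.mix_lower m q (A := max 1 A) (B := B) (le_max_left _ _) hB hq
  have hmix : ∀ (s : ℝ) (N : Fin m → ℕ) (r : Fin m → ℕ → ℝ) (T : ℝ), Pool.Agent.H469.F4.mixM s N r T = mixedMoment s N r T :=
    fun _ _ _ _ => rfl
  have hord : ∀ (s : ℝ) (N : Fin m → ℕ) (T : ℝ), Pool.Agent.H469.F4.ordN s N T = order s N T := by
    intro s N T
    unfold Pool.Agent.H469.F4.ordN order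
    rw [Finset.prod_mul_distrib, mul_assoc]
  have main : ∀ᶠ T : ℝ in atTop, ∀ N : Fin m → ℕ, (∀ i, 2 ≤ N i ∧ (N i : ℝ) ≤ T ^ (min θ₁ θ₂)) →
      ∀ r : Fin m → ℕ → ℝ, (∀ i, Admissible q B (N i) (r i)) → ∀ s : ℝ, 0 ≤ s → s ≤ A →
        c * order s N T ≤ mixedMoment s N r T ∧ (s ≤ 2 → mixedMoment s N r T ≤ C * order s N T) := by
    filter_upwards [hup, hlow, eventually_ge_atTop (1 : ℝ)] with T g1 g2 hT1
    intro N hN r hr s hs0 hsA
    have e1 : T ^ (min θ₁ θ₂) ≤ T ^ θ₁ := Real.rpow_le_rpow_of_exponent_le hT1 (min_le_left _ _)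
    have e2 : T ^ (min θ₁ θ₂) ≤ T ^ θ₂ := Real.rpow_le_rpow_of_exponent_le hT1 (min_le_right _ _)
    refine ⟨?_, fun hs2 => ?_⟩
    · have h1 := g2 N (fun i => ⟨(hN i).1, (hN i).2.trans e2⟩) r (fun i n => ((hr i).1 n).1) (fun i n => (hr i).2 n) s hs0
        (hsA.trans (le_max_right _ _))
      rwa [hord, hmix] at h1
    · have h1 := g1 N (fun i => ⟨(hN i).1, (hN i).2.trans e1⟩) r (fun i n => (hr i).1 n) s hs0 hs2
      rwa [hord, hmix] at h1
  refine ⟨min θ₁ θ₂, by positivity, ⟨c, C, hc, hC, main⟩, fun η hη => ?_⟩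
  obtain ⟨a, ha⟩ : ∃ a : ℝ, a = min η 1 := ⟨_, rfl⟩
  obtain ⟨b, hb⟩ : ∃ b : ℝ, b = max (min θ₁ θ₂) 1 := ⟨_, rfl⟩
  have ha0 : 0 < a := by rw [ha]; positivity
  have ha1 : a ≤ 1 := by rw [ha]; exact min_le_right _ _
  have haη : a ≤ η := by rw [ha]; exact min_le_left _ _
  have hb1 : 1 ≤ b := by rw [hb]; exact le_max_right _ _
  have hbθ : min θ₁ θ₂ ≤ b := by rw [hb]; exact le_max_left _ _
  have hb0 : 0 < b := by linarith
  obtain ⟨E, hE⟩ : ∃ E : ℝ, E = 2 * |A| * m + m * m := ⟨_, rfl⟩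
  have hm0 : (0 : ℝ) ≤ m := Nat.cast_nonneg m
  -- powers
  have key : ∀ x L s : ℝ, 0 < x → 0 < L → L ^ (s ^ 2) * (∏ _i : Fin m, (x * L) ^ (2 * s)) * (∏ _i : Fin m, ∏ _j : Fin m, (x * L)) =
      x ^ (2 * s * m + m * m) * L ^ ((s + m) ^ 2) := by
    intro x L s hx hL
    have hxL : 0 < x * L := by positivity
    rw [Finset.prod_const, Finset.prod_const, Finset.prod_const, Finset.card_univ, Fintype.card_fin, ← pow_mul,
      ← Real.rpow_natCast ((x * L) ^ (2 * s)), ← Real.rpow_mul hxL.le, ← Real.rpow_natCast (x * L), mul_assoc, ← Real.rpow_add hxL,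
      Real.mul_rpow hx.le hL.le]
    push_cast
    rw [mul_left_comm, ← Real.rpow_add hL]
    congr 2
    ring
  refine ⟨c * a ^ E, C * b ^ E, by positivity, by positivity, ?_⟩
  filter_upwards [main, eventually_ge_atTop (1 : ℝ), Real.tendsto_log_atTop.eventually_gt_atTop 0,
    (tendsto_rpow_atTop hη).eventually_ge_atTop 2] with T g hT1 hL hTη
  intro N hN r hr s hs0 hsA
  have hT0 : 0 < T := by linarith
  have hN2 : ∀ i, 2 ≤ N i := fun i => by exact_mod_cast hTη.trans (hN i).1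
  obtain ⟨f1, f2⟩ := g N (fun i => ⟨hN2 i, (hN i).2⟩) r hr s hs0 hsA
  have hNpos : ∀ i, (0 : ℝ) < N i := fun i => by exact_mod_cast (by have := hN2 i; omega : 0 < N i)
  have l1 : ∀ i, a * Real.log T ≤ Real.log (N i) := fun i => by
    have h1 := Real.log_le_log (by positivity) (hN i).1
    rw [Real.log_rpow hT0] at h1
    exact (mul_le_mul_of_nonneg_right haη hL.le).trans h1
  have l2 : ∀ i, Real.log (N i) ≤ b * Real.log T := fun i => by
    have h1 := Real.log_le_log (hNpos i) (hN i).2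
    rw [Real.log_rpow hT0] at h1
    exact h1.trans (mul_le_mul_of_nonneg_right hbθ hL.le)
  have haL : 0 < a * Real.log T := by positivity
  have hbL : 0 < b * Real.log T := by positivity
  have k1 : ∀ i j, a * Real.log T ≤ Real.log (min (N i) (N j) : ℕ) := fun i j => by
    rcases min_choice (N i) (N j) with h | h
    · rw [h]; exact l1 i
    · rw [h]; exact l1 j
  have k2 : ∀ i j, Real.log (min (N i) (N j) : ℕ) ≤ b * Real.log T := fun i j => by
    rcases min_choice (N i) (N j) with h | h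
    · rw [h]; exact l2 i
    · rw [h]; exact l2 j
  have k0 : ∀ i j, 0 ≤ Real.log (min (N i) (N j) : ℕ) := fun i j => haL.le.trans (k1 i j)
  have h2s : 0 ≤ 2 * s := by linarith
  have hexpo : 2 * s * m + m * m ≤ E := by
    rw [hE]
    have h1 : s ≤ |A| := hsA.trans (le_abs_self A)
    have h2 : 2 * s * (m : ℝ) ≤ 2 * |A| * m := mul_le_mul_of_nonneg_right (by linarith) hm0
    linarith
  have o1 : a ^ E * Real.log T ^ ((s + m) ^ 2) ≤ order s N T := by
    have h1 : a ^ E ≤ a ^ (2 * s * m + m * m) := Real.rpow_le_rpow_of_exponent_ge ha0 ha1 hexpo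
    refine (mul_le_mul_of_nonneg_right h1 (by positivity)).trans ?_
    rw [← key a (Real.log T) s ha0 hL]
    unfold order
    apply mul_le_mul
    · apply mul_le_mul_of_nonneg_left _ (by positivity)
      exact Finset.prod_le_prod (fun i _ => by positivity) fun i _ => Real.rpow_le_rpow haL.le (l1 i) h2s
    · exact Finset.prod_le_prod (fun i _ => Finset.prod_nonneg fun j _ => haL.le) fun i _ =>
        Finset.prod_le_prod (fun j _ => haL.le) fun j _ => k1 i j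
    · exact Finset.prod_nonneg fun i _ => Finset.prod_nonneg fun j _ => haL.le
    · exact mul_nonneg (by positivity) (Finset.prod_nonneg fun i _ => Real.rpow_nonneg (haL.le.trans (l1 i)) _)
  have o2 : order s N T ≤ b ^ E * Real.log T ^ ((s + m) ^ 2) := by
    have h1 : b ^ (2 * s * m + m * m) ≤ b ^ E := Real.rpow_le_rpow_of_exponent_le hb1 hexpo
    refine le_trans ?_ (mul_le_mul_of_nonneg_right h1 (by positivity))
    rw [← key b (Real.log T) s hb0 hL]
    unfold order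
    apply mul_le_mul
    · apply mul_le_mul_of_nonneg_left _ (by positivity)
      exact Finset.prod_le_prod (fun i _ => Real.rpow_nonneg (haL.le.trans (l1 i)) _) fun i _ =>
        Real.rpow_le_rpow (haL.le.trans (l1 i)) (l2 i) h2s
    · exact Finset.prod_le_prod (fun i _ => Finset.prod_nonneg fun j _ => k0 i j) fun i _ =>
        Finset.prod_le_prod (fun j _ => k0 i j) fun j _ => k2 i j
    · exact Finset.prod_nonneg fun i _ => Finset.prod_nonneg fun j _ => k0 i j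
    · positivity
  refine ⟨?_, fun hs2 => ?_⟩
  · calc c * a ^ E * Real.log T ^ ((s + m) ^ 2) = c * (a ^ E * Real.log T ^ ((s + m) ^ 2)) := by ring
      _ ≤ c * order s N T := mul_le_mul_of_nonneg_left o1 hc.le
      _ ≤ _ := f1
  · calc mixedMoment s N r T ≤ C * order s N T := f2 hs2
      _ ≤ C * (b ^ E * Real.log T ^ ((s + m) ^ 2)) := mul_le_mul_of_nonneg_left o2 hC.le
      _ = _ := by ring

end

end Pool.Agent.Results.MP_6a632e_nt.ZetaAndPartialSums
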